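import Pool.Agent.H494Z.QE.Spec
import Pool.Agent.H726Z.NH.TH

set_option autoImplicit false
set_option linter.unusedSectionVars false
set_option linter.unusedVariables false

/-!
An element of a star subalgebra close to a contraction can be taken bounded.
-/

namespace Pool.Agent.H509Z.QE

open Matrix Finset Pool.Agent.H304Z.NH Pool.Agent.H494Z.QE
open Pool.Agent.H726Z.NH (D D_mul D_star D_sub D_smul D_one D_le tr_D nsq_conj)
open scoped MatrixOrder ComplexOrder

variable {n : Type} [Fintype n] [DecidableEq n]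

theorem spec {x : Mat n} (hx : xᴴ = x) :
    ∃ (V : Mat n) (lam : n → ℝ), IsU V ∧ x = D V lam := by
  have hH : x.IsHermitian := hx
  refine ⟨hH.eigenvectorUnitary, hH.eigenvalues, ⟨by
    simpa [star_eq_conjTranspose] using (Unitary.coe_star_mul_self hH.eigenvectorUnitary), by
    simpa [star_eq_conjTranspose] using (Unitary.coe_mul_star_self hH.eigenvectorUnitary)⟩, ?_⟩
  have := hH.spectral_theorem
  rw [Unitary.conjStarAlgAut_apply] at this
  exact this

theorem D_add (V : Mat n) (f g : n → ℝ) : D V f + D V g = D V (fun i => f i + g i) := by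
  unfold D
  rw [← Matrix.add_mul, ← Matrix.mul_add, diagonal_add]
  simp

theorem rsmul_mem (A : StarSubalgebra ℂ (Mat n)) (r : ℝ) {a : Mat n} (ha : a ∈ A) :
    r • a ∈ A := by
  have : r • a = (r : ℂ) • a := by
    ext i j; simp
  rw [this]; exact A.smul_mem ha _

theorem D_mem (A : StarSubalgebra ℂ (Mat n)) {V : Mat n} (hV : IsU V) (lam : n → ℝ)
    (h : D V lam ∈ A) (φ : ℝ → ℝ) : D V (fun i => φ (lam i)) ∈ A := by
  classical
  have hp : ∀ p : Polynomial ℝ, D V (fun i => p.eval (lam i)) ∈ A := by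
    intro p
    induction p using Polynomial.induction_on with
    | C a =>
      have : D V (fun i => (Polynomial.C a).eval (lam i)) = a • D V (fun _ => 1) := by
        rw [D_smul]; simp
      rw [this, D_one hV]
      exact rsmul_mem A a A.one_mem
    | add p q hp hq =>
      have : D V (fun i => (p + q).eval (lam i)) =
          D V (fun i => p.eval (lam i)) + D V (fun i => q.eval (lam i)) := by
        rw [D_add]; simp
      rw [this]; exact A.add_mem hp hq
    | monomial k a hp =>
      have : D V (fun i => (Polynomial.C a * Polynomial.X ^ (k + 1)).eval (lam i)) =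
          D V (fun i => (Polynomial.C a * Polynomial.X ^ k).eval (lam i)) * D V lam := by
        rw [D_mul hV]; congr 1; funext i; simp; ring
      rw [this]; exact A.mul_mem hp h
  have := hp (Lagrange.interpolate (Finset.univ.image lam) id φ)
  convert this using 2
  funext i
  have h1 := Lagrange.eval_interpolate_at_node (s := Finset.univ.image lam) (v := id) (r := φ)
    (i := lam i) (Function.injective_id.injOn) (Finset.mem_image_of_mem _ (Finset.mem_univ i))
  exact h1.symm

theorem diag_le {y : Mat n} (hy : yᴴ * y ≤ 1) (k : n) : |(y k k).re| ≤ 1 := by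
  have h1 := (Matrix.nonneg_iff_posSemidef.mp (sub_nonneg.mpr hy)).diag_nonneg (i := k)
  have h2 := (Complex.nonneg_iff.mp h1).1
  simp only [Matrix.sub_apply, Matrix.one_apply_eq, Matrix.mul_apply, conjTranspose_apply,
    Complex.sub_re, Complex.one_re, Complex.re_sum] at h2
  have h3 : ∀ l, (star (y l k) * y l k).re = ‖y l k‖ ^ 2 := by
    intro l
    rw [Complex.star_def, Complex.conj_mul']
    norm_cast
  simp only [h3] at h2
  have h4 : ‖y k k‖ ^ 2 ≤ ∑ l, ‖y l k‖ ^ 2 :=
    Finset.single_le_sum (f := fun l => ‖y l k‖ ^ 2) (fun l _ => by positivity) (mem_univ k)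
  have h5 : ‖y k k‖ ≤ 1 := by nlinarith [norm_nonneg (y k k)]
  exact (Complex.abs_re_le_norm _).trans h5

theorem clamp_herm (A : StarSubalgebra ℂ (Mat n)) {x a : Mat n} (hx : xᴴ * x ≤ 1) (ha : a ∈ A)
    (hh : aᴴ = a) : ∃ b ∈ A, bᴴ * b ≤ 1 ∧ nsq (x - b) ≤ 4 * nsq (x - a) := by
  obtain ⟨V, lam, hV, rfl⟩ := spec hh
  set φ : ℝ → ℝ := fun t => max (-1) (min 1 t) with hφ
  refine ⟨D V (fun i => φ (lam i)), D_mem A hV lam ha φ, ?_, ?_⟩
  · rw [D_star, D_mul hV, ← D_one hV]
    refine D_le V fun i => ?_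
    have h1 : -1 ≤ φ (lam i) := le_max_left _ _
    have h2 : φ (lam i) ≤ 1 := max_le (by norm_num) (min_le_left _ _)
    nlinarith
  · have h1 : nsq (D V lam - D V (fun i => φ (lam i))) = ∑ i, (lam i - φ (lam i)) ^ 2 := by
      rw [D_sub, nsq_eq, D_star, D_mul hV, tr_D hV]
      exact Finset.sum_congr rfl fun i _ => by ring
    set y := Vᴴ * x * V with hy
    have hy1 : yᴴ * y ≤ 1 := by
      have e : yᴴ * y = Vᴴ * (xᴴ * x) * V := by
        rw [hy, conjTranspose_mul, conjTranspose_mul, conjTranspose_conjTranspose]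
        calc Vᴴ * (xᴴ * V) * (Vᴴ * x * V) = Vᴴ * (xᴴ * (V * Vᴴ) * x) * V := by
              simp only [Matrix.mul_assoc]
          _ = _ := by rw [hV.2, Matrix.mul_one]
      have := conj_le hx V
      rwa [Matrix.mul_one, hV.1, ← e] at this
    have h2 : x - D V lam = V * (y - diagonal (fun i => (lam i : ℂ))) * Vᴴ := by
      unfold D
      rw [Matrix.mul_sub, Matrix.sub_mul, hy]
      congr 1
      calc x = (V * Vᴴ) * x * (V * Vᴴ) := by rw [hV.2, Matrix.one_mul, Matrix.mul_one]
        _ = _ := by simp only [Matrix.mul_assoc]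
    have h3 : ∑ i, (lam i - φ (lam i)) ^ 2 ≤ nsq (x - D V lam) := by
      rw [h2, nsq_conj hV, Pool.Agent.H726Z.NH.nsq_eq]
      refine Finset.sum_le_sum fun k _ => ?_
      refine le_trans ?_ (Finset.single_le_sum
        (f := fun l => ‖(y - diagonal (fun i => (lam i : ℂ))) k l‖ ^ 2)
        (fun l _ => by positivity) (mem_univ k))
      have h4 := abs_le.mp (diag_le hy1 k)
      have h5 := Complex.abs_re_le_norm ((y - diagonal (fun i => (lam i : ℂ))) k k)
      have h6 : ((y - diagonal (fun i => (lam i : ℂ))) k k).re = (y k k).re - lam k := by simp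
      rw [h6] at h5
      have h7 : ((y k k).re - lam k) ^ 2 ≤ ‖(y - diagonal (fun i => (lam i : ℂ))) k k‖ ^ 2 := by
        rw [← sq_abs]
        exact pow_le_pow_left₀ (abs_nonneg _) h5 2
      refine le_trans ?_ h7
      simp only [hφ]
      rcases le_total (lam k) 1 with h8 | h8
      · rw [min_eq_right h8]
        rcases le_total (-1) (lam k) with h9 | h9
        · rw [max_eq_right h9]; nlinarith [sq_nonneg ((y k k).re - lam k)]
        · rw [max_eq_left h9]; nlinarith
      · rw [min_eq_left h8, max_eq_right (by norm_num)]; nlinarith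
    have h8 := nsq_add_le (x - D V lam) (D V lam - D V (fun i => φ (lam i)))
    rw [sub_add_sub_cancel] at h8
    linarith

theorem par_le (p q : Mat n) :
    (p + q)ᴴ * (p + q) ≤ (2 : ℝ) • (pᴴ * p) + (2 : ℝ) • (qᴴ * q) := by
  have h := star_mul_nonneg (p - q)
  have e : (2 : ℝ) • (pᴴ * p) + (2 : ℝ) • (qᴴ * q) - (p + q)ᴴ * (p + q) = (p - q)ᴴ * (p - q) := by
    rw [conjTranspose_add, conjTranspose_sub, two_smul, two_smul]; noncomm_ring
  rw [← sub_nonneg, e]; exact h

/-- the hermitian part -/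
noncomputable def rp (y : Mat n) : Mat n := (1 / 2 : ℝ) • (y + yᴴ)

theorem rp_star (y : Mat n) : (rp y)ᴴ = rp y := by
  rw [rp, rsmul_star, conjTranspose_add, conjTranspose_conjTranspose, add_comm]

theorem rp_sub (x y : Mat n) : rp x - rp y = rp (x - y) := by
  rw [rp, rp, rp, ← smul_sub, conjTranspose_sub]; congr 1; abel

theorem nsq_rp (y : Mat n) : nsq (rp y) ≤ nsq y := by
  rw [rp, nsq_smul]
  have := nsq_add_le y yᴴ
  rw [nsq_star] at this
  linarith

theorem rp_le {y : Mat n} (hy : yᴴ * y ≤ 1) : (rp y)ᴴ * rp y ≤ 1 := by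
  have h1 := par_le y yᴴ
  rw [conjTranspose_conjTranspose] at h1
  have h2 := add_le_add (rsmul_le (r := 2) (by norm_num) hy)
    (rsmul_le (r := 2) (by norm_num) (mul_star_le_one hy))
  have h3 := rsmul_le (r := 1 / 4) (by norm_num) (h1.trans h2)
  rw [← add_smul, smul_smul] at h3
  norm_num at h3
  rw [rp, rsmul_star, Matrix.smul_mul, Matrix.mul_smul, smul_smul]
  norm_num
  exact h3

theorem rp_mem (A : StarSubalgebra ℂ (Mat n)) {a : Mat n} (ha : a ∈ A) : rp a ∈ A :=
  have h : aᴴ ∈ A := star_mem (s := A) ha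
  rsmul_mem A _ (add_mem ha h)

theorem I_sq (c : ℂ) (hc : star c * c = 1) (y : Mat n) : (c • y)ᴴ * (c • y) = yᴴ * y := by
  rw [conjTranspose_smul, Matrix.smul_mul, Matrix.mul_smul, smul_smul, hc, one_smul]

theorem rp_dec (x : Mat n) : x = rp x + Complex.I • rp ((-Complex.I) • x) := by
  ext i j
  simp only [rp, Matrix.add_apply, Matrix.smul_apply, conjTranspose_apply, smul_eq_mul,
    Complex.real_smul, star_mul', star_neg, Complex.star_def, Complex.conj_I]
  push_cast
  linear_combination ((x i j) / 2 - (starRingEnd ℂ) (x j i) / 2) * Complex.I_mul_I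

theorem clamp : S_CLAMP := by
  intro n _ _ A x a hx ha
  have hI : star Complex.I * Complex.I = 1 := by simp
  have hI' : star (-Complex.I) * (-Complex.I) = 1 := by simp
  obtain ⟨b1, hb1, hc1, hn1⟩ := clamp_herm A (rp_le hx) (rp_mem A ha) (rp_star a)
  have hx2 : ((-Complex.I) • x)ᴴ * ((-Complex.I) • x) ≤ 1 := by rw [I_sq _ hI']; exact hx
  obtain ⟨b2, hb2, hc2, hn2⟩ := clamp_herm A (rp_le hx2)
    (rp_mem A (A.smul_mem ha (-Complex.I))) (rp_star _)
  refine ⟨b1 + Complex.I • b2, A.add_mem hb1 (A.smul_mem hb2 _), ?_, ?_⟩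
  · have h1 := par_le b1 (Complex.I • b2)
    rw [I_sq _ hI] at h1
    have h2 := add_le_add (rsmul_le (r := 2) (by norm_num) hc1)
      (rsmul_le (r := 2) (by norm_num) hc2)
    rw [← add_smul] at h2
    norm_num at h2
    exact h1.trans h2
  · have e : x - (b1 + Complex.I • b2) =
        (rp x - b1) + Complex.I • (rp ((-Complex.I) • x) - b2) := by
      rw [smul_sub]
      nth_rewrite 1 [rp_dec x]
      abel
    have h1 := nsq_add_le (rp x - b1) (Complex.I • (rp ((-Complex.I) • x) - b2))
    have h2 : nsq (Complex.I • (rp ((-Complex.I) • x) - b2)) =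
        nsq (rp ((-Complex.I) • x) - b2) := by rw [nsq_eq, I_sq _ hI, ← nsq_eq]
    rw [rp_sub] at hn1 hn2
    have h3 := nsq_rp (x - a)
    have h4 := nsq_rp ((-Complex.I) • x - (-Complex.I) • a)
    have h5 : nsq ((-Complex.I) • x - (-Complex.I) • a) = nsq (x - a) := by
      rw [← smul_sub, nsq_eq, I_sq _ hI', ← nsq_eq]
    rw [e]
    linarith

end Pool.Agent.H509Z.QE
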