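import Pool.Agent.H509Z.QE.Clamp

set_option autoImplicit false
set_option linter.unusedSectionVars false
set_option linter.unusedVariables false

/-!
From the finite form of the theorem to the ultraproduct.
-/

namespace Pool.Agent.H509Z.QE

open Matrix Finset Filter Topology Pool.Agent.H304Z.NH Pool.Agent.H494Z.QE
open Pool.Agent.H494Z.QEDefs
open scoped MatrixOrder ComplexOrder

variable {d : ℕ → ℕ} {U : Ultrafilter ℕ}

/-- null sequences -/
def Z (U : Ultrafilter ℕ) (x : Seq d) : Prop :=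
  Tendsto (fun k => nsq (x k) / (d k : ℝ)) U (𝓝 0)

/-- bounded multipliers -/
def Bd (a : Seq d) : Prop :=
  ∃ C : ℝ, ∀ k (x : Mat (Fin (d k))), nsq (a k * x) ≤ C * nsq x ∧ nsq (x * a k) ≤ C * nsq x

theorem q_nonneg (x : Seq d) (k : ℕ) : 0 ≤ nsq (x k) / (d k : ℝ) :=
  div_nonneg (nsq_nonneg _) (Nat.cast_nonneg _)

theorem same_iff (x y : Seq d) : Same U x y ↔ Z U (x - y) := by
  constructor
  · intro h
    have h1 := h.pow 2
    rw [zero_pow two_ne_zero] at h1
    refine h1.congr fun k => ?_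
    exact Real.sq_sqrt (q_nonneg (x - y) k)
  · intro h
    have h1 := h.sqrt
    rw [Real.sqrt_zero] at h1
    exact h1

theorem Z.of_le {x : Seq d} {f : ℕ → ℝ} (hf : Tendsto f U (𝓝 0))
    (h : ∀ᶠ k in (U : Filter ℕ), nsq (x k) / (d k : ℝ) ≤ f k) : Z U x :=
  squeeze_zero' (Eventually.of_forall (q_nonneg x)) h hf

theorem Z.of_mul {x y : Seq d} (hy : Z U y) (C : ℝ) (h : ∀ k, nsq (x k) ≤ C * nsq (y k)) :
    Z U x := by
  have h1 := hy.const_mul C
  rw [mul_zero] at h1
  refine Z.of_le h1 (Eventually.of_forall fun k => ?_)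
  rw [← mul_div_assoc]
  exact div_le_div_of_nonneg_right (h k) (Nat.cast_nonneg _)

theorem Z.add {x y : Seq d} (hx : Z U x) (hy : Z U y) : Z U (x + y) := by
  have h1 := (hx.const_mul 2).add (hy.const_mul 2)
  rw [mul_zero, add_zero] at h1
  refine Z.of_le h1 (Eventually.of_forall fun k => ?_)
  rw [← mul_div_assoc, ← mul_div_assoc, ← add_div]
  exact div_le_div_of_nonneg_right (nsq_add_le _ _) (Nat.cast_nonneg _)

theorem Z.neg {x : Seq d} (hx : Z U x) : Z U (-x) :=
  hx.of_mul 1 fun k => by rw [Pi.neg_apply, nsq_neg, one_mul]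

theorem Z.sub {x y : Seq d} (hx : Z U x) (hy : Z U y) : Z U (x - y) := by
  rw [sub_eq_add_neg]; exact hx.add hy.neg

theorem Z.zero : Z U (0 : Seq d) := by
  refine Z.of_le tendsto_const_nhds (Eventually.of_forall fun k => ?_)
  rw [Pi.zero_apply, nsq_zero, zero_div]

theorem Z.left {a x : Seq d} (ha : Bd a) (hx : Z U x) : Z U (a * x) := by
  obtain ⟨C, hC⟩ := ha
  exact hx.of_mul C fun k => (hC k _).1

theorem Z.right {a x : Seq d} (ha : Bd a) (hx : Z U x) : Z U (x * a) := by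
  obtain ⟨C, hC⟩ := ha
  exact hx.of_mul C fun k => (hC k _).2

theorem Z.of_eq {x y : Seq d} (hy : Z U y) (h : x = y) : Z U x := h ▸ hy

theorem scale {a : Seq d} (ha : Bdd a) :
    ∃ c : ℝ, 0 < c ∧ ∀ k, (c • a k)ᴴ * (c • a k) ≤ 1 := by
  obtain ⟨C, hC⟩ := ha
  have hp : 0 < |C| + 1 := by positivity
  refine ⟨1 / (|C| + 1), by positivity, fun k => ?_⟩
  have h1 : (a k)ᴴ * a k ≤ C • (1 : Mat (Fin (d k))) :=
    sub_nonneg.mp (Matrix.nonneg_iff_posSemidef.mpr (hC k))
  rw [rsmul_star, Matrix.smul_mul, Matrix.mul_smul, smul_smul]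
  refine (rsmul_le (by positivity) h1).trans ?_
  rw [smul_smul]
  have h2 : 1 / (|C| + 1) * (1 / (|C| + 1)) * C ≤ 1 := by
    rw [div_mul_div_comm, one_mul, div_mul_eq_mul_div, one_mul, div_le_one (by positivity)]
    nlinarith [le_abs_self C, abs_nonneg C]
  have := rsmul_le_of_le h2 (one_nonneg' (n := Fin (d k)))
  rwa [one_smul] at this

theorem bd_of_bdd {a : Seq d} (ha : Bdd a) : Bd a := by
  obtain ⟨c, hc, h⟩ := scale ha
  refine ⟨(c ^ 2)⁻¹, fun k x => ⟨?_, ?_⟩⟩
  · have h1 := nsq_mul_le_left (h k) x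
    rw [Matrix.smul_mul, nsq_smul] at h1
    rw [← div_eq_inv_mul, le_div_iff₀ (by positivity)]
    linarith
  · have h1 := nsq_mul_le_right (mul_star_le_one (h k)) x
    rw [Matrix.mul_smul, nsq_smul] at h1
    rw [← div_eq_inv_mul, le_div_iff₀ (by positivity)]
    linarith

theorem bd_of_U {a : Seq d} (ha : ∀ k, IsU (a k)) : Bd a :=
  ⟨1, fun k x => ⟨by rw [nsq_U_mul (ha k), one_mul], by rw [nsq_mul_U (ha k), one_mul]⟩⟩

theorem lifts (hP : S_POL) {G : Type} [Group G] {π : G → Seq d} (hπ : IsUnitaryHom U π) :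
    ∃ u : G → Seq d, (∀ g k, IsU (u g k)) ∧ u 1 = 1 ∧ (∀ g, Z U (π g - u g)) ∧
      ∀ g h, Z U (u g * u h - u (g * h)) := by
  classical
  obtain ⟨hb, hu, hm⟩ := hπ
  have hw : ∀ g k, ∃ w : Mat (Fin (d k)), IsU w ∧
      nsq (π g k - w) ≤ nsq ((π g k)ᴴ * π g k - 1) := by
    intro g k
    obtain ⟨w, z, -, h2, -, -, -, h3⟩ := hP (Fin (d k)) 1 1 (π g k) isProj_one isProj_one le_rfl
      (Matrix.one_mul _) (Matrix.mul_one _)
    exact ⟨w, ⟨h2, mul_eq_one_comm.mp h2⟩, h3⟩
  choose w hwU hwn using hw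
  have hz : ∀ g, Z U (π g - w g) := fun g =>
    ((same_iff _ _).mp (hu g).1).of_mul 1 fun k => by rw [one_mul]; exact hwn g k
  have hdf : ∀ v : G → Seq d, (∀ g k, IsU (v g k)) → (∀ g, Z U (π g - v g)) →
      ∀ g h, Z U (v g * v h - v (g * h)) := by
    intro v hv hz g h
    refine (((((hz g).right (bd_of_U (hv h))).neg.sub ((hz h).left (bd_of_bdd (hb g)))).sub
      ((same_iff _ _).mp (hm g h))).add (hz (g * h))).of_eq ?_
    noncomm_ring
  have h1 : Z U (w 1 - 1) := by
    have h2 := hdf w hwU hz 1 1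
    rw [mul_one] at h2
    refine h2.of_mul 1 fun k => ?_
    have e : (w 1 * w 1 - w 1 : Seq d) k = w 1 k * (w 1 k - 1) := by
      simp only [Pi.sub_apply, Pi.mul_apply, Matrix.mul_sub, Matrix.mul_one]
    rw [e, nsq_U_mul (hwU 1 k), one_mul]
    exact le_rfl
  have hU : ∀ g k, IsU ((if g = 1 then 1 else w g : Seq d) k) := by
    intro g k
    split_ifs
    · exact ⟨by simp, by simp⟩
    · exact hwU g k
  have hz' : ∀ g, Z U (π g - (if g = 1 then 1 else w g : Seq d)) := by
    intro g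
    split_ifs with h
    · subst h
      exact ((hz 1).add h1).of_eq (by abel)
    · exact hz g
  exact ⟨fun g => if g = 1 then 1 else w g, hU, if_pos rfl, hz', hdf _ hU hz'⟩

theorem ult (hP : S_POL) (hC : S_CLAMP) (hF : S_FIN) : S_MAIN := by
  classical
  intro G _ _ hT S hS hsym U hU d hd π hπ
  obtain ⟨S₀, ε₀, hε₀, hK⟩ := hT
  have hKaz : Kaz G (S ∪ S₀) := ⟨ε₀, hε₀, fun E _ _ _ ρ hρ ⟨v, hv, h⟩ =>
    hK E ρ hρ ⟨v, hv, fun s hs => h s (Finset.mem_union_right _ hs)⟩⟩
  obtain ⟨u, huU, hu1, huz, hdf⟩ := lifts hP hπ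
  have hbu : ∀ g, Bd (u g) := fun g => bd_of_U (huU g)
  have hbπ : ∀ g, Bd (π g) := fun g => bd_of_bdd (hπ.1 g)
  obtain ⟨C, hC0, hfin⟩ := hF G (S ∪ S₀) hKaz
  choose W δ hδ hW using fun m : ℕ => hfin (1 / ((m : ℝ) + 1)) (by positivity)
  have hdp : ∀ k, (0 : ℝ) < d k := fun k => by exact_mod_cast hd k
  let Good : ℕ → ℕ → Prop := fun m k => ∀ g ∈ W m, ∀ h ∈ W m,
    nsq (df (fun g => u g k) g h) ≤ δ m * Fintype.card (Fin (d k))
  have hG : ∀ m, ∀ᶠ k in (U : Filter ℕ), Good m k := by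
    intro m
    refine (eventually_all_finset _).mpr fun g _ => (eventually_all_finset _).mpr fun h _ => ?_
    filter_upwards [(hdf g h).eventually (gt_mem_nhds (hδ m))] with k hk
    rw [div_lt_iff₀ (hdp k)] at hk
    rw [Fintype.card_fin]
    exact hk.le
  let M : ℕ → ℕ := fun k => Nat.findGreatest (fun m => Good m k) k
  have hM : ∀ m, ∀ᶠ k in (U : Filter ℕ), m ≤ M k ∧ Good (M k) k := by
    intro m
    have h1 : ∀ᶠ k in (U : Filter ℕ), m ≤ k := by
      refine hU ?_
      rw [Nat.cofinite_eq_atTop]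
      exact eventually_ge_atTop m
    filter_upwards [h1, hG m] with k hk hg
    exact ⟨Nat.le_findGreatest hk hg, Nat.findGreatest_spec (P := fun m => Good m k) hk hg⟩
  have hMg : ∀ᶠ k in (U : Filter ℕ), Good (M k) k := (hM 0).mono fun k hk => hk.2
  have hε : Tendsto (fun k => 1 / ((M k : ℝ) + 1)) U (𝓝 0) :=
    tendsto_one_div_add_atTop_nhds_zero_nat.comp
      (tendsto_atTop.mpr fun m => (hM m).mono fun k hk => hk.1)
  have hv : ∀ k, ∃ v : G → Mat (Fin (d k)), Good (M k) k →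
      (∀ s ∈ S ∪ S₀, nsq (u s k - v s) ≤ 1 / ((M k : ℝ) + 1) * Fintype.card (Fin (d k))) ∧
      ∀ x : Mat (Fin (d k)), xᴴ * x ≤ 1 → ∃ a : Mat (Fin (d k)),
        (∀ s ∈ S ∪ S₀, v s * a = a * v s ∧ (v s)ᴴ * a = a * (v s)ᴴ) ∧
        nsq (x - a) ≤ C * en (fun g => u g k) (S ∪ S₀) x +
          1 / ((M k : ℝ) + 1) * Fintype.card (Fin (d k)) := by
    intro k
    by_cases hg : Good (M k) k
    · obtain ⟨v, hv⟩ := hW (M k) (Fin (d k)) (fun g => u g k) (fun g => huU g k)
        (by rw [hu1]; rfl) hg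
      exact ⟨v, fun _ => hv⟩
    · exact ⟨fun _ => 1, fun h => absurd h hg⟩
  choose v hv using hv
  refine ⟨fun k => StarSubalgebra.centralizer ℂ (v k '' ((S ∪ S₀ : Finset G) : Set G)),
    fun x hx => ⟨fun hcm => ?_, fun ⟨a, ha, haA, hxa⟩ => ?_⟩⟩
  · obtain ⟨c, hc, hcx⟩ := scale hx
    have hbx := bd_of_bdd hx
    have hcu : ∀ g, Z U (u g * x - x * u g) := by
      intro g
      refine ((((huz g).right hbx).neg.sub ((same_iff _ _).mp (hcm g))).add
        ((huz g).left hbx)).of_eq ?_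
      noncomm_ring
    have hen : Tendsto (fun k => en (fun g => u g k) (S ∪ S₀) (c • x k) / (d k : ℝ)) U (𝓝 0) := by
      have h1 := tendsto_finsetSum (S ∪ S₀) fun s _ => (hcu s).const_mul (c ^ 2)
      simp only [mul_zero, Finset.sum_const_zero] at h1
      refine h1.congr fun k => ?_
      rw [en, Finset.sum_div]
      refine Finset.sum_congr rfl fun s _ => ?_
      rw [cm_smul, nsq_smul, mul_div_assoc]
      rfl
    have hb : ∀ k, ∃ b ∈ StarSubalgebra.centralizer ℂ (v k '' ((S ∪ S₀ : Finset G) : Set G)),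
        bᴴ * b ≤ (4 : ℝ) • (1 : Mat (Fin (d k))) ∧ (Good (M k) k →
          nsq (c • x k - b) ≤ 16 * (C * en (fun g => u g k) (S ∪ S₀) (c • x k) +
            1 / ((M k : ℝ) + 1) * d k)) := by
      intro k
      by_cases hg : Good (M k) k
      · obtain ⟨a, ha1, ha2⟩ := (hv k hg).2 (c • x k) (hcx k)
        have haA : a ∈ StarSubalgebra.centralizer ℂ (v k '' ((S ∪ S₀ : Finset G) : Set G)) := by
          rw [StarSubalgebra.mem_centralizer_iff]
          rintro _ ⟨s, hs, rfl⟩
          exact ha1 s hs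
        obtain ⟨b, hb1, hb2, hb3⟩ := hC (Fin (d k)) _ (c • x k) a (hcx k) haA
        rw [Fintype.card_fin] at ha2
        exact ⟨b, hb1, hb2, fun _ => by linarith⟩
      · refine ⟨0, zero_mem _, ?_, fun h => absurd h hg⟩
        rw [Matrix.mul_zero]
        exact rsmul_nonneg (by norm_num) one_nonneg'
    choose b hbA hb4 hbn using hb
    refine ⟨fun k => c⁻¹ • b k, ⟨c⁻¹ * c⁻¹ * 4, fun k => ?_⟩, fun k => rsmul_mem _ _ (hbA k), ?_⟩
    · rw [← Matrix.nonneg_iff_posSemidef, sub_nonneg, rsmul_star, Matrix.smul_mul,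
        Matrix.mul_smul, smul_smul, ← smul_smul (c⁻¹ * c⁻¹)]
      exact rsmul_le (by positivity) (hb4 k)
    · rw [same_iff]
      have h1 := (((hen.const_mul C).add hε).const_mul 16).const_mul (c⁻¹ ^ 2)
      simp only [mul_zero, add_zero] at h1
      refine Z.of_le h1 ?_
      filter_upwards [hMg] with k hk
      have e : (x - fun k => c⁻¹ • b k : Seq d) k = c⁻¹ • (c • x k - b k) := by
        rw [smul_sub, smul_smul, inv_mul_cancel₀ hc.ne', one_smul]
        rfl
      rw [e, nsq_smul, mul_div_assoc]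
      refine mul_le_mul_of_nonneg_left ?_ (by positivity)
      rw [div_le_iff₀ (hdp k)]
      have h2 := hbn k hk
      have h3 := hdp k
      have h4 : 16 * (C * (en (fun g => u g k) (S ∪ S₀) (c • x k) / (d k : ℝ)) +
          1 / ((M k : ℝ) + 1)) * d k = 16 * (C * en (fun g => u g k) (S ∪ S₀) (c • x k) +
            1 / ((M k : ℝ) + 1) * d k) := by
        field_simp
      rw [h4]
      exact h2
  · have hba := bd_of_bdd ha
    have hbx := bd_of_bdd hx
    have hxa' := (same_iff _ _).mp hxa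
    have hgen : ∀ s ∈ S, Z U (x * u s - u s * x) := by
      intro s hs
      have hs' : s ∈ S ∪ S₀ := Finset.mem_union_left _ hs
      have huv : Z U (u s - fun k => v k s) := by
        refine Z.of_le hε ?_
        filter_upwards [hMg] with k hk
        have := (hv k hk).1 s hs'
        rw [Fintype.card_fin] at this
        rw [div_le_iff₀ (hdp k)]
        exact this
      have hcv : a * (fun k => v k s) = (fun k => v k s) * a := by
        funext k
        have := haA k
        rw [StarSubalgebra.mem_centralizer_iff] at this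
        exact (this (v k s) ⟨s, hs', rfl⟩).1.symm
      refine ((((hxa'.right (hbu s)).add (huv.left hba)).sub (huv.right hba)).sub
        (hxa'.left (hbu s))).of_eq ?_
      rw [mul_sub a, hcv]
      noncomm_ring
    have hall : ∀ g, Z U (x * u g - u g * x) := by
      intro g
      have hg : g ∈ Subgroup.closure (S : Set G) := hS ▸ Subgroup.mem_top g
      induction hg using Subgroup.closure_induction'' with
      | mem s hs => exact hgen s hs
      | inv_mem s hs => exact hgen _ (hsym s hs)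
      | one => exact Z.zero.of_eq (by rw [hu1, mul_one, one_mul, sub_self])
      | mul g h _ _ hg hh =>
        refine (((((hdf g h).left hbx).neg.add (hg.right (hbu h))).add (hh.left (hbu g))).add
          ((hdf g h).right hbx)).of_eq ?_
        noncomm_ring
    intro g
    rw [same_iff]
    refine ((((huz g).left hbx).add (hall g)).sub ((huz g).right hbx)).of_eq ?_
    noncomm_ring

end Pool.Agent.H509Z.QE
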